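import Mathlib
import Pool.Agent.H771R2.SingerDS

/-!
# Difference sets with Singer parameters: orders which are not sums of two squares

Let `n` be `1` or `2` modulo `4` and not a sum of two squares. By quadratic reciprocity the number
`1 + n + ... + n ^ (l - 1)` has a prime factor `q` modulo which some prime `r` with odd exponent in
`n` is not a square, for each prime `l` which is `3` modulo `4` (for all odd `l` if `n` is `2`
modulo `4`).
-/

set_option autoImplicit false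

namespace Pool.Agent.Q242.AD

open Filter Topology Finset
open Pool.Agent.H771R2.Dens Pool.Agent.H771R2.Lander Pool.Agent.H771R2.SingerDS
open NumberTheorySymbols

theorem geom_mod_one {n : ℕ} (hn : n % 4 = 1) (l : ℕ) :
    (∑ i ∈ range l, n ^ i) % 4 = l % 4 := by
  induction l with
  | zero => simp
  | succ l ih =>
    rw [sum_range_succ, Nat.add_mod, ih, Nat.pow_mod, hn, one_pow]
    omega

theorem geom_mod_two {n : ℕ} (hn : n % 4 = 2) (l : ℕ) :
    (∑ i ∈ range (l + 2), n ^ i) % 4 = 3 := by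
  induction l with
  | zero =>
    rw [sum_range_succ, sum_range_one, pow_zero, pow_one]
    omega
  | succ l ih =>
    rw [show l + 1 + 2 = (l + 2) + 1 by ring, sum_range_succ, Nat.add_mod, ih]
    have h2 : n ^ (l + 2) % 4 = 0 := by
      have h3 : 4 ∣ n ^ 2 := by
        have : 2 ∣ n := by omega
        have := pow_dvd_pow_of_dvd this 2
        simpa using this
      exact Nat.mod_eq_zero_of_dvd (h3.trans (pow_dvd_pow n (by omega)))
    rw [h2]

/-- a prime divisor `q` of `1 + n + ... + n ^ (l - 1)` with `r` a non-residue modulo `q` -/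
theorem exists_prime_divisor {n r l : ℕ} (hr4 : r % 4 = 3) (hrn : r ∣ n) (hl : 1 ≤ l)
    (hV : (∑ i ∈ range l, n ^ i) % 4 = 3) :
    ∃ q : ℕ, q.Prime ∧ q ∣ ∑ i ∈ range l, n ^ i ∧ (r : ZMod q) ^ ((q - 1) / 2) = -1 := by
  set V := ∑ i ∈ range l, n ^ i with hVdef
  have h1 : J((V : ℤ) | r) = 1 := by
    have h2 : (V : ℤ) % (r : ℤ) = 1 % (r : ℤ) := by
      obtain ⟨k, rfl⟩ : ∃ k, l = k + 1 := ⟨l - 1, by omega⟩
      rw [hVdef, sum_range_succ', pow_zero]
      push_cast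
      refine Int.ModEq.symm ?_ |>.symm
      have h3 : (r : ℤ) ∣ ∑ i ∈ range k, (n : ℤ) ^ (i + 1) := by
        refine dvd_sum fun i _ => ?_
        exact (Int.natCast_dvd_natCast.2 hrn).trans (dvd_pow_self _ (by omega))
      have h4 : (∑ i ∈ range k, (n : ℤ) ^ (i + 1)) ≡ 0 [ZMOD (r : ℤ)] :=
        (Int.modEq_zero_iff_dvd).2 h3
      simpa using h4.add_right 1
    rw [jacobiSym.mod_left' h2, jacobiSym.one_left]
  have h2 : J((r : ℤ) | V) = -1 := by
    rw [jacobiSym.quadratic_reciprocity_three_mod_four hr4 hV, h1]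
  obtain ⟨q, hq, hqV, hJ⟩ := jacobiSym.eq_neg_one_at_prime_divisor_of_eq_neg_one h2
  refine ⟨q, hq, hqV, ?_⟩
  have : Fact q.Prime := ⟨hq⟩
  rw [← jacobiSym.legendreSym.to_jacobiSym] at hJ
  have h3 := legendreSym.eq_pow q (r : ℤ)
  rw [hJ] at h3
  have hodd : q % 2 = 1 := by
    rcases hq.eq_two_or_odd with h4 | h4
    · exfalso
      have h5 : 2 ∣ V := h4 ▸ hqV
      omega
    · exact h4
  have h4 : (q - 1) / 2 = q / 2 := by omega
  rw [h4]
  push_cast at h3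
  exact h3.symm

/-- the exclusion -/
theorem no_singer {n m l q r : ℕ} (hm : Odd m) (hm3 : 3 ≤ m) (hlm : l ∣ m)
    (hn : 2 ≤ n) (hq : q.Prime) (hqV : q ∣ ∑ i ∈ range l, n ^ i) (hr : r.Prime)
    (he : Odd (n.factorization r)) (hrq : (r : ZMod q) ^ ((q - 1) / 2) = -1)
    (h : HasSinger n m) : False := by
  obtain ⟨G, hG, hGf, hGd, D, h1, h2, h3⟩ := h
  have : Fact q.Prime := ⟨hq⟩
  have hn1 : 0 < n - 1 := by omega
  -- sizes
  have hgeom : ∀ j : ℕ, (∑ i ∈ Finset.range j, n ^ i) * (n - 1) = n ^ j - 1 := by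
    intro j
    exact Nat.geomSum_eq (by omega) j ▸ (Nat.div_mul_cancel (by
      simpa using Nat.sub_dvd_pow_sub_pow n 1 j))
  have hv : Fintype.card G = ∑ i ∈ Finset.range m, n ^ i :=
    Nat.eq_of_mul_eq_mul_right hn1 (h1.trans (hgeom m).symm)
  have hk : D.card = ∑ i ∈ Finset.range (m - 1), n ^ i :=
    Nat.eq_of_mul_eq_mul_right hn1 (h2.trans (hgeom (m - 1)).symm)
  have hlam : ∀ g : G, g ≠ 1 → ((D ×ˢ D).filter (fun p : G × G => p.1 * p.2⁻¹ = g)).card =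
      ∑ i ∈ Finset.range (m - 2), n ^ i := fun g hg =>
    Nat.eq_of_mul_eq_mul_right hn1 ((h3 g hg).trans (hgeom (m - 2)).symm)
  -- `v` is odd
  have hodd : Odd (Fintype.card G) := by
    obtain ⟨j, rfl⟩ := hm
    rw [hv]
    exact odd_geom n j
  -- `q ∣ v`
  have hqv : q ∣ Fintype.card G := by
    refine hqV.trans ?_
    apply Nat.dvd_of_mul_dvd_mul_right hn1
    rw [hgeom l, h1]
    obtain ⟨t, rfl⟩ := hlm
    have := Nat.sub_dvd_pow_sub_pow (n ^ l) 1 t
    rwa [← pow_mul, one_pow] at this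
  have hn0 : n ≠ 0 := by omega
  obtain ⟨u, hu⟩ := Nat.ordProj_dvd n r
  have hru : ¬ r ∣ u := by
    intro h4
    have h5 : r ^ (n.factorization r + 1) ∣ n := by
      rw [pow_succ]
      conv_rhs => rw [hu]
      exact Nat.mul_dvd_mul_left _ h4
    exact Nat.pow_succ_factorization_not_dvd hn0 hr h5
  have hru' : ¬ (r : ℤ) ∣ ((u : ℤ) ^ (m - 2)) := by
    intro h4
    have h5 := (Nat.prime_iff_prime_int.1 hr).dvd_of_dvd_pow h4
    exact hru (by exact_mod_cast h5)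
  have hm2 : Odd (m - 2) := by
    obtain ⟨j, rfl⟩ := hm
    exact ⟨j - 1, by omega⟩
  refine no_difference_set D _ _ hk hlam hodd hq hqv hr hrq (a := n.factorization r * (m - 2))
    (he.mul hm2) hru' ?_
  have h4 : m - 1 = (m - 2) + 1 := by omega
  rw [h4, Finset.sum_range_succ]
  have h5 : (n : ℤ) ^ (m - 2) = (r : ℤ) ^ (n.factorization r * (m - 2)) * (u : ℤ) ^ (m - 2) := by
    rw [pow_mul, ← mul_pow]
    congr 1
    exact_mod_cast hu
  push_cast
  rw [h5]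
  ring

/-- the main theorem -/
theorem main {n : ℕ} (h4 : n % 4 = 1 ∨ n % 4 = 2) (hn : ¬ ∃ x y : ℕ, n = x ^ 2 + y ^ 2) {m : ℕ}
    (hm : Odd m) (hm3 : 3 ≤ m) (hl : n % 4 = 2 ∨ ∃ l : ℕ, l.Prime ∧ l % 4 = 3 ∧ l ∣ m) :
    ¬ HasSinger n m := by
  intro h
  have hn2 : 2 ≤ n := by
    by_contra hlt
    have : n = 1 := by omega
    exact hn ⟨1, 0, by rw [this]; norm_num⟩
  rw [Nat.eq_sq_add_sq_iff] at hn
  push Not at hn
  obtain ⟨r, hr, hr4, he⟩ := hn
  rw [Nat.mem_primeFactors] at hr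
  obtain ⟨hrp, hrn, hn0⟩ := hr
  rw [Nat.not_even_iff_odd, ← Nat.factorization_def n hrp] at he
  have key : ∀ l : ℕ, 1 ≤ l → l ∣ m → (∑ i ∈ range l, n ^ i) % 4 = 3 → False := by
    intro l hl1 hlm hV
    obtain ⟨q, hq, hqV, hrq⟩ := exists_prime_divisor hr4 hrn hl1 hV
    exact no_singer hm hm3 hlm hn2 hq hqV hrp he hrq h
  rcases hl with h2 | ⟨l, hlp, hl4, hlm⟩
  · obtain ⟨k, rfl⟩ : ∃ k, m = k + 2 := ⟨m - 2, by omega⟩
    exact key (k + 2) (by omega) dvd_rfl (geom_mod_two h2 k)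
  · rcases h4 with h1 | h2
    · exact key l hlp.one_lt.le hlm ((geom_mod_one h1 l).trans hl4)
    · obtain ⟨k, rfl⟩ : ∃ k, m = k + 2 := ⟨m - 2, by omega⟩
      exact key (k + 2) (by omega) dvd_rfl (geom_mod_two h2 k)

/-- numbers without prime factors `3` modulo `4` have density zero -/
theorem free_zero : Tendsto (fun N : ℕ =>
    (cnt (fun m => ∀ l : ℕ, l.Prime → l % 4 = 3 → ¬ l ∣ m) N : ℝ) / N) atTop (𝓝 0) := by
  rw [Metric.tendsto_atTop]
  intro ε hε
  have hu : IsUnit (3 : ZMod 4) := by decide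
  obtain ⟨F, hF, hFε⟩ := exists_exp_small (big_ap hu) (ε := ε / 4) (by positivity)
  have hF4 : ∀ p ∈ F, p % 4 = 3 := by
    intro p hp
    have h1 := (hF p hp).2
    have h2 : (p : ZMod 4) = ((3 : ℕ) : ZMod 4) := by simpa using h1
    exact (ZMod.natCast_eq_natCast_iff' _ _ _).1 h2
  have hA : Per (fun n => ∀ q ∈ F, n % q ≠ 0 % q) (∏ q ∈ F, q)
      (∏ q ∈ F, Real.exp (-(1 / (q : ℝ)))) :=
    Per.forall F (fun q n => n % q ≠ 0 % q) (fun q => q) _
      (fun q hq => per_ne (hF q hq).1.pos _) (fun q _ => (Real.exp_pos _).le)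
      (fun q hq q' hq' h => (Nat.coprime_primes (hF q hq).1 (hF q' hq').1).2 h)
  have hA' : (∏ q ∈ F, Real.exp (-(1 / (q : ℝ)))) ≤ ε / 4 := by
    rw [← Real.exp_sum, sum_neg_distrib]
    refine le_trans ?_ hFε
    rw [Real.exp_le_exp]
    have : 0 ≤ ∑ q ∈ F, 1 / (q : ℝ) := sum_nonneg fun q _ => by positivity
    linarith
  have key : ∀ N : ℕ, (cnt (fun m => ∀ l : ℕ, l.Prime → l % 4 = 3 → ¬ l ∣ m) N : ℝ) ≤
      ε / 4 * N + ((∏ q ∈ F, q : ℕ) : ℝ) := by
    intro N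
    have h1 : cnt (fun m => ∀ l : ℕ, l.Prime → l % 4 = 3 → ¬ l ∣ m) N ≤
        cnt (fun n => ∀ q ∈ F, n % q ≠ 0 % q) N := by
      refine cnt_mono (fun m hm q hq h => ?_) N
      refine hm q (hF q hq).1 (hF4 q hq) (Nat.dvd_of_mod_eq_zero ?_)
      rw [h, Nat.zero_mod]
    have h2 := hA.count N
    have h3 : (cnt (fun m => ∀ l : ℕ, l.Prime → l % 4 = 3 → ¬ l ∣ m) N : ℝ) ≤
        cnt (fun n => ∀ q ∈ F, n % q ≠ 0 % q) N := by exact_mod_cast h1
    have h4 := mul_le_mul_of_nonneg_right hA' (Nat.cast_nonneg (α := ℝ) N)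
    linarith
  obtain ⟨N₀, hN₀⟩ := exists_nat_gt (4 * ((∏ q ∈ F, q : ℕ) : ℝ) / ε)
  refine ⟨max N₀ 1, fun N hN => ?_⟩
  have hN0 : (0 : ℝ) < N := by
    have := (le_max_right N₀ 1).trans hN
    exact_mod_cast this
  have h1 : 4 * ((∏ q ∈ F, q : ℕ) : ℝ) / ε < N :=
    hN₀.trans_le (by exact_mod_cast (le_max_left N₀ 1).trans hN)
  rw [div_lt_iff₀ hε] at h1
  rw [Real.dist_eq, sub_zero, abs_of_nonneg (by positivity), div_lt_iff₀ hN0]
  have h2 := key N
  nlinarith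

end Pool.Agent.Q242.AD
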